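import Pool.Agent.N436.DF.Stm2
import Pool.Agent.N897.DF.KillRho

/-!
# Project DF, DG/6: savings inequalities (helper163)
-/

set_option autoImplicit false

namespace Pool.Agent.N163.DF

open Finset Pool.Agent.N436.DF Pool.Agent.N897.DF.KillRho

theorem sav2 : S_sav2 := by
  intro V _ P H X f v h
  have ha : 0 < P.a := by have := P.hab; have := P.hb; have := P.hd; omega
  have hd0 : 0 ≤ P.d := by have := P.hd; omega
  have hb : P.b = P.a - P.d := by have := P.hab; omega
  have n1 := nr_nn h X f true v
  have n2 := nr_nn h X f false v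
  have p1 := pr_nn h X f true v
  have p2 := pr_nn h X f false v
  have i1 := ineq1 h X f v
  have i2 := ineq2 h X f v
  have k1 : 1 ≤ nr H X f true v → (kill H X f).c true v = -1 := fun hh => by
    rw [kc1, if_pos (by omega)]
  have k2 : 1 ≤ nr H X f false v → (kill H X f).c false v = -1 := fun hh => by
    rw [kc2, if_pos (by omega)]
  refine ⟨fun h1 => ?_, fun h1 => ?_, fun h1 h2 => ?_, fun h1 h2 h3 => ?_⟩
  · rw [sav_eq, k1 h1]
    have e : P.D * (nr H X f true v + nr H X f false v) + P.a * (pr H X f true v + pr H X f false v)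
        - P.a * (H.c true v - -1) - (P.D * nr H X f false v + P.b * pr H X f true v) =
        P.D * nr H X f true v - P.a * (H.c true v + 1) + P.d * pr H X f true v +
          P.a * pr H X f false v := by
      rw [hb]; ring
    linarith
  · rw [sav_eq, k2 h1]
    have h3 : 0 ≤ P.a * pr H X f true v := mul_nonneg ha.le p1
    have h4 : 0 ≤ P.d * nr H X f true v := mul_nonneg hd0 n1
    linarith
  · rw [sav_eq, k1 h1, k2 h2]
    linarith
  · have hk : (kill H X f).c false v = H.c false v - pr H X f true v := by
      rw [kc2, if_neg (by omega), max_eq_right (by omega)]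
    rw [sav_eq, k1 h1, hk, h3, hb]
    ring

end Pool.Agent.N163.DF
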